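import Pool.Agent.Helper11.PP.GoalsD
import Pool.Agent.Helper11.RL.INE
import Pool.Agent.Helper42.RS.RAM
import Pool.Agent.Helper90.RP.DUAL
import Pool.Agent.Helper90.LE.CYC
import Pool.Agent.Helper79.RD.GOO

/-! # PP-DTAM: ramification outside `p` -/

namespace Pool.Agent.Helper58.PP

open NumberField Polynomial Module IsDedekindDomain _root_.Pool.Agent.Helper51.SigLeo
open _root_.Pool.Agent.Helper51.RP _root_.Pool.Agent.Helper42.RD _root_.Pool.Agent.Helper11.LE
open _root_.Pool.Agent.Helper11.PP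
open _root_.Pool.Agent.Helper40.RS (bel efg lies)
open _root_.Pool.Agent.Helper40.RD (ordW valW bel_of_above)
open _root_.Pool.Agent.Helper79.RD

section tower

variable {K M : Type} [Field K] [NumberField K] [Field M] [NumberField M] [Algebra K M]

/-- The ramification index over `K`. -/
noncomputable def ee (K : Type) {M : Type} [Field K] [NumberField K] [Field M] [NumberField M]
    [Algebra K M] (W : HeightOneSpectrum (𝓞 M)) : ℕ :=
  (bel K W).asIdeal.ramificationIdx' W.asIdeal

theorem above_bel (W : HeightOneSpectrum (𝓞 M)) : Above W (bel K W) := rfl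

theorem ord_ee (W : HeightOneSpectrum (𝓞 M)) (x : K) :
    ordv W (algebraMap K M x) = (ee K W : ℤ) * ordv (bel K W) x := ordW W x

theorem exists_ord_eq (v : HeightOneSpectrum (𝓞 M)) (n : ℤ) : ∃ x : M, x ≠ 0 ∧ ordv v x = n := by
  obtain ⟨x, hx⟩ := v.valuation_surjective M (WithZero.exp (-n))
  refine ⟨x, ?_, ?_⟩
  · rintro rfl
    rw [map_zero] at hx
    exact WithZero.exp_ne_zero hx.symm
  · unfold ordv
    rw [hx, WithZero.log_exp, neg_neg]

theorem ee_dvd [IsGalois K M] (W : HeightOneSpectrum (𝓞 M)) : ee K W ∣ finrank K M := by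
  have h1 := efg (K := K) W
  rw [ee, Ideal.ramificationIdx'_eq_ramificationIdx _ _ (bel K W).ne_bot, ← h1]
  exact Dvd.dvd.mul_left (dvd_mul_right _ _) _

variable {N : Type} [Field N] [NumberField N] [Algebra K N] [Algebra N M] [IsScalarTower K N M]

theorem bel_bel (W : HeightOneSpectrum (𝓞 M)) : bel K (bel N W) = bel K W := by
  apply HeightOneSpectrum.ext
  ext x
  show algebraMap (𝓞 N) (𝓞 M) (algebraMap (𝓞 K) (𝓞 N) x) ∈ W.asIdeal ↔
    algebraMap (𝓞 K) (𝓞 M) x ∈ W.asIdeal
  rw [← IsScalarTower.algebraMap_apply]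

theorem ee_mul (W : HeightOneSpectrum (𝓞 M)) : ee K W = ee N W * ee K (bel N W) := by
  obtain ⟨x, hx, hx1⟩ := exists_ord_eq (bel K W) 1
  have h1 := ord_ee (K := K) W x
  have h2 := ord_ee (K := N) W (algebraMap K N x)
  have h3 := ord_ee (K := K) (bel N W) x
  rw [← IsScalarTower.algebraMap_apply, h1, h3, bel_bel, hx1] at h2
  have h4 : (ee K W : ℤ) = (ee N W : ℤ) * (ee K (bel N W) : ℤ) := by linarith
  exact_mod_cast h4

end tower

section inertia

variable {K₁ H : Type} [Field K₁] [NumberField K₁] [Field H] [NumberField H] [Algebra K₁ H]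

omit [NumberField K₁] in
/-- An automorphism which is trivial modulo `P` on the integers is trivial modulo `P` on the elements
integral at `P`. -/
theorem inertia_lt (P : HeightOneSpectrum (𝓞 H)) (g : H ≃ₐ[K₁] H)
    (hg : ∀ x : 𝓞 H, P.valuation H (g (x : H) - x) < 1) (x : H) (hx : P.valuation H x ≤ 1) :
    P.valuation H (g x - x) < 1 := by
  obtain ⟨w, hw⟩ := _root_.Pool.Agent.Helper90.RP.Dual.exists_conj g P
  have hwP : w = P := by
    apply HeightOneSpectrum.ext
    have hle : P.asIdeal ≤ w.asIdeal := by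
      intro x hx
      have h1 : P.valuation H (x : H) < 1 :=
        (HeightOneSpectrum.valuation_lt_one_iff_mem (K := H) P x).2 hx
      have h2 := hg ⟨g.symm (x : H), map_isIntegral_int g.symm (RingOfIntegers.isIntegral_coe x)⟩
      have h3 : P.valuation H (g.symm (x : H)) < 1 := by
        have h4 : g.symm (x : H) = (x : H) - (g (g.symm (x : H)) - g.symm (x : H)) := by
          rw [AlgEquiv.apply_symm_apply]
          ring
        rw [h4]
        exact lt_of_le_of_lt (Valuation.map_sub _ _ _) (max_lt h1 h2)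
      rw [← hw, AlgEquiv.apply_symm_apply] at h3
      exact (HeightOneSpectrum.valuation_lt_one_iff_mem (K := H) w x).1 h3
    exact (Ideal.IsMaximal.eq_of_le P.isMaximal w.isPrime.ne_top hle).symm
  subst hwP
  obtain ⟨y, hy⟩ := w.exists_valuation_sub_lt_of_integer hx 1
  have hy' : w.valuation H ((y : H) - x) < 1 := hy
  have e1 : g x - x = (g (y : H) - y) - (g ((y : H) - x) - ((y : H) - x)) := by
    rw [map_sub]
    ring
  rw [e1]
  refine lt_of_le_of_lt (Valuation.map_sub _ _ _) (max_lt (hg y) ?_)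
  refine lt_of_le_of_lt (Valuation.map_sub _ _ _) (max_lt ?_ hy')
  rw [hw]
  exact hy'

/-- The core: `s ^ p = a`, `γ s = ε s`, `P` is ramified over `K₁` and does not contain `p`. -/
theorem core {p : ℕ} (hp : p.Prime) [IsGalois K₁ H] (hdeg : finrank K₁ H = p) (ε : K₁)
    (hε : IsPrimitiveRoot ε p) (a : K₁) (ha : a ≠ 0) (s : H) (hs : s ^ p = algebraMap K₁ H a)
    (γ : H ≃ₐ[K₁] H) (hγ : γ s = algebraMap K₁ H ε * s) (P : HeightOneSpectrum (𝓞 H))
    (hP : (p : 𝓞 H) ∉ P.asIdeal) : ee K₁ P = 1 ∨ ¬ (p : ℤ) ∣ ordv (bel K₁ P) a := by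
  by_contra hcon
  rw [not_or, not_not] at hcon
  obtain ⟨h1, c', hc'⟩ := hcon
  obtain ⟨c, hc0, hc⟩ := exists_ord_eq (bel K₁ P) c'
  have hcH : algebraMap K₁ H c ≠ 0 := (_root_.map_ne_zero _).2 hc0
  have haH : algebraMap K₁ H a ≠ 0 := (_root_.map_ne_zero _).2 ha
  have hs0 : s ≠ 0 := by
    rintro rfl
    rw [zero_pow hp.ne_zero] at hs
    exact haH hs.symm
  -- the unit
  set s' : H := s / algebraMap K₁ H c with hs'
  have hs'0 : s' ≠ 0 := div_ne_zero hs0 hcH
  have hval : P.valuation H s' = 1 := by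
    have e1 : ordv (bel K₁ P) (a / c ^ p) = 0 := by
      unfold ordv at hc hc' ⊢
      rw [map_div₀, map_pow, WithZero.log_div, WithZero.log_pow]
      · rw [nsmul_eq_mul]
        have : WithZero.log ((bel K₁ P).valuation K₁ a) = - (p * c') := by linarith
        rw [this]
        have h2 : WithZero.log ((bel K₁ P).valuation K₁ c) = -c' := by linarith
        rw [h2]
        ring
      · exact (Valuation.ne_zero_iff _).2 ha
      · exact pow_ne_zero _ ((Valuation.ne_zero_iff _).2 hc0)
    have e2 : (bel K₁ P).valuation K₁ (a / c ^ p) = 1 := by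
      unfold ordv at e1
      have h3 : (bel K₁ P).valuation K₁ (a / c ^ p) ≠ 0 :=
        (Valuation.ne_zero_iff _).2 (div_ne_zero ha (pow_ne_zero _ hc0))
      have h4 := WithZero.exp_log h3
      rw [← h4, neg_eq_zero.1 e1, WithZero.exp_zero]
    have e3 : P.valuation H (s' ^ p) = 1 := by
      have : s' ^ p = algebraMap K₁ H (a / c ^ p) := by
        rw [hs', div_pow, hs, map_div₀, map_pow]
      rw [this, valW, e2, one_pow]
    rw [map_pow] at e3
    exact (pow_eq_one_iff.1 e3).resolve_right hp.ne_zero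
  -- inertia
  have hin : ¬ ∀ g : H ≃ₐ[K₁] H, (∀ x : 𝓞 H, P.valuation H (g (x : H) - x) < 1) → g = 1 := by
    intro hin
    have h2 := _root_.Pool.Agent.Helper11.RL.x_ine K₁ H P (bel K₁ P) rfl hin
    obtain ⟨x, hx, hx1⟩ := exists_ord_eq (bel K₁ P) 1
    have h3 := h2 x
    rw [ord_ee, hx1, mul_one] at h3
    exact h1 (by exact_mod_cast h3)
  push Not at hin
  obtain ⟨g, hg, hg1⟩ := hin
  have hcard : Nat.card (H ≃ₐ[K₁] H) = p := by rw [IsGalois.card_aut_eq_finrank, hdeg]
  have hfp : Fact p.Prime := ⟨hp⟩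
  have hεH : IsPrimitiveRoot (algebraMap K₁ H ε) p :=
    hε.map_of_injective (algebraMap K₁ H).injective
  have hγ1 : γ ≠ 1 := by
    rintro rfl
    have e1 : (algebraMap K₁ H ε - 1) * s = 0 := by
      rw [sub_mul, ← hγ]
      simp
    rcases mul_eq_zero.1 e1 with h' | h'
    · exact hεH.ne_one hp.one_lt (sub_eq_zero.1 h')
    · exact hs0 h'
  obtain ⟨i, hi⟩ : ∃ i : ℕ, γ ^ i = g := by
    have e1 : g ∈ Submonoid.powers γ := mem_powers_of_prime_card hcard hγ1
    exact e1
  have hpi : i.Coprime p := by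
    rw [Nat.coprime_comm, hp.coprime_iff_not_dvd]
    rintro ⟨d, rfl⟩
    apply hg1
    rw [← hi, pow_mul, ← hcard, pow_card_eq_one', one_pow]
  have hγs' : γ s' = algebraMap K₁ H ε * s' := by
    rw [hs', map_div₀, hγ, AlgEquiv.commutes, mul_div_assoc]
  have hpow : ∀ n : ℕ, (γ ^ n) s' = algebraMap K₁ H ε ^ n * s' := by
    intro n
    induction n with
    | zero => simp
    | succ n ih =>
      rw [pow_succ', AlgEquiv.mul_apply, ih, map_mul, map_pow, AlgEquiv.commutes, hγs', pow_succ]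
      ring
  have hη := hεH.pow_of_coprime i hpi
  set η : H := algebraMap K₁ H ε ^ i with hηd
  have hlt := inertia_lt P g hg s' hval.le
  rw [← hi, hpow i, ← hηd] at hlt
  have hlt2 : P.valuation H (η - 1) < 1 := by
    have e1 : η * s' - s' = (η - 1) * s' := by ring
    rw [e1, map_mul, hval, mul_one] at hlt
    exact hlt
  have hηO := hη.toInteger_isPrimitiveRoot
  set ηO : 𝓞 H := hη.toInteger with hηOd
  have hmem : ηO - 1 ∈ P.asIdeal := by
    rw [← HeightOneSpectrum.valuation_lt_one_iff_mem (K := H)]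
    exact hlt2
  have hsum := hηO.geom_sum_eq_zero hp.one_lt
  apply hP
  rw [← Ideal.Quotient.eq_zero_iff_mem]
  have h5 : Ideal.Quotient.mk P.asIdeal ηO = 1 := by
    rw [← map_one (Ideal.Quotient.mk P.asIdeal), Ideal.Quotient.eq]
    exact hmem
  have h6 := congrArg (Ideal.Quotient.mk P.asIdeal) hsum
  rw [map_sum, map_zero] at h6
  simp only [map_pow, h5, one_pow, Finset.sum_const, Finset.card_range, nsmul_eq_mul,
    mul_one] at h6
  rw [map_natCast]
  exact h6

end inertia

theorem ee_ne (K : Type) {M : Type} [Field K] [NumberField K] [Field M] [NumberField M]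
    [Algebra K M] (W : HeightOneSpectrum (𝓞 M)) : ee K W ≠ 0 :=
  Ideal.IsDedekindDomain.ramificationIdx'_ne_zero_of_liesOver W.asIdeal (bel K W).ne_bot

theorem map_le_iff (K : Type) {M : Type} [Field K] [NumberField K] [Field M] [NumberField M]
    [Algebra K M] (W : HeightOneSpectrum (𝓞 M)) :
    (bel K W).asIdeal.map (algebraMap (𝓞 K) (𝓞 M)) ≤ W.asIdeal ^ 2 ↔ 2 ≤ ee K W := by
  refine ⟨fun h => ?_, fun h => Ideal.le_pow_of_le_ramificationIdx' h⟩
  obtain ⟨x, hx⟩ := (bel K W).intValuation_exists_uniformizer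
  have h1 : x ∈ (bel K W).asIdeal := by
    rw [← HeightOneSpectrum.intValuation_lt_one_iff_mem, hx, ← WithZero.exp_zero,
      WithZero.exp_lt_exp]
    norm_num
  have h2 := h (Ideal.mem_map_of_mem _ h1)
  rw [← HeightOneSpectrum.intValuation_le_pow_iff_mem,
    ← HeightOneSpectrum.valuation_of_algebraMap (K := M)] at h2
  have h3 : W.valuation M (algebraMap K M (algebraMap (𝓞 K) K x)) ≤
      WithZero.exp (-((2 : ℕ) : ℤ)) := h2
  rw [valW, HeightOneSpectrum.valuation_of_algebraMap, hx, ← WithZero.exp_nsmul,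
    WithZero.exp_le_exp] at h3
  have h4 : (2 : ℤ) ≤ (ee K W : ℤ) := by
    rw [nsmul_eq_mul] at h3
    unfold ee
    push_cast at h3
    linarith
  exact_mod_cast h4

theorem tam {p : ℕ} (hp : p.Prime) {K N K₁ H : Type} [Field K] [NumberField K] [Field N]
    [NumberField N] [Field K₁] [NumberField K₁] [Field H] [NumberField H] [Algebra K N]
    [Algebra K K₁] [Algebra K H] [Algebra N H] [Algebra K₁ H] [IsScalarTower K N H]
    [IsScalarTower K K₁ H] [IsGalois K N] [IsGalois K K₁] [IsGalois N H] [IsGalois K₁ H]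
    (hN : finrank K N = p) (hcop : (finrank K K₁).Coprime p) (hdeg : finrank K₁ H = p)
    (ε : K₁) (hε : IsPrimitiveRoot ε p) (a : K₁) (ha : a ≠ 0) (s : H)
    (hs : s ^ p = algebraMap K₁ H a) (γ : H ≃ₐ[K₁] H) (hγ : γ s = algebraMap K₁ H ε * s)
    (v : HeightOneSpectrum (𝓞 K)) (hv : (p : 𝓞 K) ∉ v.asIdeal) :
    RamIn N v ↔ ∃ W : HeightOneSpectrum (𝓞 K₁), Above W v ∧ ¬ (p : ℤ) ∣ ordv W a := by
  have hNH : finrank N H = finrank K K₁ := by
    have h1 := Module.finrank_mul_finrank K N H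
    have h2 := Module.finrank_mul_finrank K K₁ H
    rw [hN] at h1
    rw [hdeg] at h2
    have h3 : p * finrank N H = p * finrank K K₁ := by rw [h1, ← h2, mul_comm]
    exact Nat.eq_of_mul_eq_mul_left hp.pos h3
  have key : ∀ P : HeightOneSpectrum (𝓞 H), p ∣ ee K (bel N P) ↔ p ∣ ee K₁ P := by
    intro P
    have h1 := ee_mul (K := K) (N := N) P
    have h2 := ee_mul (K := K) (N := K₁) P
    have h3 : (ee N P).Coprime p := Nat.Coprime.coprime_dvd_left (by
      rw [← hNH]; exact ee_dvd P) hcop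
    have h4 : (ee K (bel K₁ P)).Coprime p := Nat.Coprime.coprime_dvd_left (ee_dvd _) hcop
    constructor
    · intro h
      have h5 : p ∣ ee K₁ P * ee K (bel K₁ P) := by
        rw [← h2, h1]
        exact Dvd.dvd.mul_left h _
      exact (Nat.Coprime.dvd_of_dvd_mul_right h4.symm h5)
    · intro h
      have h5 : p ∣ ee N P * ee K (bel N P) := by
        rw [← h1, h2]
        exact Dvd.dvd.mul_right h _
      exact (Nat.Coprime.dvd_of_dvd_mul_left h3.symm h5)
  constructor
  · rintro ⟨V, hV, hV2⟩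
    obtain ⟨P, hP⟩ := _root_.Pool.Agent.Helper42.RS.exists_above (M := N) (H := H) V
    have hPV : bel N P = V := HeightOneSpectrum.ext hP.over.symm
    have hVv : bel K V = v := bel_of_above hV
    rw [← hVv, map_le_iff] at hV2
    have h1 : p ∣ ee K V := by
      have h2 := ee_dvd (K := K) V
      rw [hN] at h2
      rcases (Nat.dvd_prime hp).1 h2 with h3 | h3
      · omega
      · rw [h3]
    rw [← hPV, key] at h1
    have hPv : (bel K P) = v := by rw [← bel_bel (K := K) (N := N), hPV, hVv]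
    have hpP : (p : 𝓞 H) ∉ P.asIdeal := by
      intro h
      apply hv
      rw [← hPv]
      show algebraMap (𝓞 K) (𝓞 H) (p : 𝓞 K) ∈ P.asIdeal
      rw [map_natCast]
      exact h
    refine ⟨bel K₁ P, ?_, ?_⟩
    · have : bel K (bel K₁ P) = v := by rw [bel_bel, hPv]
      rw [← this]
      exact above_bel _
    · rcases core hp hdeg ε hε a ha s hs γ hγ P hpP with h3 | h3
      · rw [h3] at h1
        exact absurd (Nat.le_of_dvd one_pos h1) (not_le.2 hp.one_lt)
      · exact h3
  · rintro ⟨W, hW, hWa⟩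
    obtain ⟨P, hP⟩ := _root_.Pool.Agent.Helper42.RS.exists_above (M := K₁) (H := H) W
    have hPW : bel K₁ P = W := HeightOneSpectrum.ext hP.over.symm
    have hWv : bel K W = v := bel_of_above hW
    have hPv : (bel K P) = v := by rw [← bel_bel (K := K) (N := K₁), hPW, hWv]
    have h1 : p ∣ ee K₁ P := by
      have h2 := ord_ee (K := K₁) P a
      rw [← hs, hPW] at h2
      have h3 : ordv P (s ^ p) = p * ordv P s := by
        unfold ordv
        rw [map_pow, WithZero.log_pow, nsmul_eq_mul]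
        ring
      rw [h3] at h2
      have h4 : (p : ℤ) ∣ (ee K₁ P : ℤ) * ordv W a := ⟨_, h2.symm⟩
      rcases (Nat.prime_iff_prime_int.1 hp).dvd_or_dvd h4 with h5 | h5
      · exact_mod_cast h5
      · exact absurd h5 hWa
    rw [← key] at h1
    refine ⟨bel N P, ?_, ?_⟩
    · have : bel K (bel N P) = v := by rw [bel_bel, hPv]
      rw [← this]
      exact above_bel _
    · have h2 : bel K (bel N P) = v := by rw [bel_bel, hPv]
      rw [← h2, map_le_iff]
      have h3 := Nat.le_of_dvd (Nat.pos_of_ne_zero (ee_ne K (bel N P))) h1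
      exact le_trans hp.two_le h3

theorem d_tam : D_TAM := by
  intro p hpf K K₁ _ _ _ _ _ ε hcyc j hj N hN a hPw hgen v hv
  obtain ⟨hNp, hNg⟩ := hN
  have hp := hpf.out
  have hε := hcyc.prim
  have hN0 : 0 < finrank K N := by rw [hNp]; exact hp.pos
  have hfN : FiniteDimensional K N := FiniteDimensional.of_finrank_pos hN0
  have hnN : Normal K N := inferInstance
  have hnΩ : Normal K (AlgebraicClosure K) := inferInstance
  have hgΩ : IsGalois K (AlgebraicClosure K) := inferInstance
  have hfKK₁ : FiniteDimensional K K₁ := FiniteDimensional.right ℚ K K₁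
  have hgK₁ : IsGalois K K₁ := hcyc.gal
  let jK : K₁ →ₐ[K] AlgebraicClosure K := { j with commutes' := hj }
  set E : IntermediateField K (AlgebraicClosure K) := jK.fieldRange with hE
  have hjE : ∀ x : K₁, j x ∈ E := fun x => ⟨x, rfl⟩
  have hEj : ∀ y ∈ E, ∃ x : K₁, j x = y := fun y hy => hy
  have hrankE : finrank K E = finrank K K₁ :=
    (LinearEquiv.finrank_eq (AlgEquiv.ofInjectiveField jK).toLinearEquiv).symm
  have hfE : FiniteDimensional K E := FiniteDimensional.of_finrank_pos (by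
    rw [hrankE]; exact finrank_pos)
  have hgE : IsGalois K E := IsGalois.of_algEquiv (AlgEquiv.ofInjectiveField jK)
  set H₁ : IntermediateField K (AlgebraicClosure K) := E ⊔ N with hH₁
  have hgH₁ : IsGalois K H₁ := inferInstance
  have hjH : ∀ x : K₁, j x ∈ H₁ := fun x => (le_sup_left : E ≤ H₁) (hjE x)
  have hNH : N ≤ H₁ := le_sup_right
  obtain ⟨s, hs⟩ := IsAlgClosed.exists_pow_nat_eq (j (a : K₁)) hp.pos
  have hr : ∀ b : K₁, b ^ p ≠ (a : K₁) := by
    intro x h1
    apply hPw
    have hx0 : x ≠ 0 := by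
      rintro rfl
      rw [zero_pow hp.ne_zero] at h1
      exact a.ne_zero h1.symm
    exact ⟨Units.mk0 x hx0, Units.ext h1.symm⟩
  have hsH : s ∈ H₁ := mem_of_fixed fun g hg =>
    hgen s hs g (fun y hy => hg y (hNH hy)) (fun x => hg _ (hjH x))
  have hfH₁ : FiniteDimensional K H₁ := inferInstance
  have hnfH₁ : NumberField H₁ := NumberField.of_module_finite K H₁
  have hnfN : NumberField N := NumberField.of_module_finite K N
  have haK₁ : (a : K₁) ≠ 0 := a.ne_zero
  obtain ⟨gK, hgj, hgs⟩ : ∃ gK : AlgebraicClosure K ≃ₐ[K] AlgebraicClosure K,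
      (∀ x, gK (j x) = j x) ∧ gK s = j ε * s := by
    let _ : Algebra K₁ (AlgebraicClosure K) := j.toAlgebra
    have ht2 : IsScalarTower K K₁ (AlgebraicClosure K) :=
      IsScalarTower.of_algebraMap_eq fun c => (hj c).symm
    have hn2 : Normal K₁ (AlgebraicClosure K) :=
      Normal.tower_top_of_normal K K₁ (AlgebraicClosure K)
    obtain ⟨-, g, hg⟩ := exists_kummer hp hε (s := s) (a := (a : K₁)) hs hr
    exact ⟨g.restrictScalars K, fun x => g.commutes x, hg⟩
  have hgE : ∀ x ∈ E, gK x = x := by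
    intro x hx
    obtain ⟨y, rfl⟩ := hEj x hx
    exact hgj y
  have hgE' : ∀ x ∈ E, gK.symm x = x := by
    intro x hx
    rw [AlgEquiv.symm_apply_eq]
    exact (hgE x hx).symm
  have hst1 : ∀ x ∈ H₁, gK x ∈ H₁ := map_sup_mem gK fun x hx => by rw [hgE x hx]; exact hx
  have hst2 : ∀ x ∈ H₁, gK.symm x ∈ H₁ := map_sup_mem gK.symm fun x hx => by
    rw [hgE' x hx]; exact hx
  -- algebras
  let _ : Algebra K₁ H₁ := (j.codRestrict H₁ hjH).toAlgebra
  have ht4 : IsScalarTower K K₁ H₁ := IsScalarTower.of_algebraMap_eq fun x =>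
    Subtype.ext (hj x).symm
  let _ : Algebra N H₁ := (IntermediateField.inclusion hNH).toRingHom.toAlgebra
  have ht5 : IsScalarTower K N H₁ := IsScalarTower.of_algebraMap_eq fun x => rfl
  have hfK₁H₁ : FiniteDimensional K₁ H₁ := FiniteDimensional.right K K₁ H₁
  have hgN : IsGalois N H₁ := IsGalois.tower_top_of_isGalois K N H₁
  have hgK : IsGalois K₁ H₁ := IsGalois.tower_top_of_isGalois K K₁ H₁
  -- degrees
  set s₁ : H₁ := ⟨s, hsH⟩ with hs₁
  have hs₁p : s₁ ^ p = algebraMap K₁ H₁ (a : K₁) := Subtype.ext hs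
  have hdegH₁ : finrank K₁ H₁ = p := by
    have e1 := Module.finrank_mul_finrank K K₁ H₁
    have e2 : finrank K H₁ ≤ finrank K E * finrank K N := IntermediateField.finrank_sup_le E N
    rw [hrankE, hNp, ← e1] at e2
    have e3 : finrank K₁ H₁ ≤ p := Nat.le_of_mul_le_mul_left e2 finrank_pos
    have e4 : minpoly K₁ s₁ = X ^ p - C (a : K₁) :=
      (minpoly.eq_of_irreducible_of_monic (X_pow_sub_C_irreducible_of_prime hp hr)
        (by rw [map_sub, map_pow, aeval_X, aeval_C, hs₁p, sub_self])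
        (monic_X_pow_sub_C _ hp.ne_zero)).symm
    have e5 : finrank K₁ (IntermediateField.adjoin K₁ {s₁}) = p := by
      rw [IntermediateField.adjoin.finrank (Algebra.IsIntegral.isIntegral s₁), e4,
        natDegree_X_pow_sub_C]
    have e6 : p ∣ finrank K₁ H₁ := by
      rw [← Module.finrank_mul_finrank K₁ (IntermediateField.adjoin K₁ {s₁}) H₁, e5]
      exact dvd_mul_right _ _
    exact le_antisymm e3 (Nat.le_of_dvd finrank_pos e6)
  set γ₁K := res gK hst1 hst2 with hγ₁K
  let γ₁ : H₁ ≃ₐ[K₁] H₁ := AlgEquiv.ofRingEquiv (f := (γ₁K : H₁ ≃+* H₁)) fun x =>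
    Subtype.ext (hgj x)
  exact tam hp hNp (_root_.Pool.Agent.Helper90.LE.l_cyc p K K₁ ε hcyc).2.1 hdegH₁ ε hε
    (a : K₁) haK₁ s₁ hs₁p γ₁ (Subtype.ext hgs) v hv

end Pool.Agent.Helper58.PP
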