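import Pool.Agent.Helper42.PP.Goals2
import Pool.Agent.Helper42.RD.VAL
import Pool.Agent.Helper90.RP.DUAL
import Pool.Agent.Helper90.LE.CYC

/-!
# Project PP, packet P_DEW: decomposition of the elements of type `ω`
-/

set_option autoImplicit false

namespace Pool.Agent.Helper58.PP

open NumberField Polynomial Module IsDedekindDomain _root_.Pool.Agent.Helper51.SigLeo
open _root_.Pool.Agent.Helper51.RP _root_.Pool.Agent.Helper42.RD _root_.Pool.Agent.Helper42.PP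
open _root_.Pool.Agent.Helper90.RP.Dual (finite_ordv)

namespace Dew

section homs

variable {F A : Type} [Field F] [AddCommGroup A] {f : Fˣ → A}

theorem hom_one (hf : Hom f) : f 1 = 0 := by
  have h := hf 1 1
  rw [mul_one] at h
  exact left_eq_add.1 h

theorem hom_inv (hf : Hom f) (x : Fˣ) : f x⁻¹ = - f x := by
  have h := hf x x⁻¹
  rw [mul_inv_cancel, hom_one hf] at h
  exact (neg_eq_of_add_eq_zero_right h.symm).symm

theorem hom_pow (hf : Hom f) (x : Fˣ) (n : ℕ) : f (x ^ n) = n • f x := by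
  induction n with
  | zero => rw [pow_zero, hom_one hf, zero_smul]
  | succ n ih => rw [pow_succ, hf, ih, succ_nsmul]

theorem hom_prod (hf : Hom f) {ι : Type} (s : Finset ι) (g : ι → Fˣ) :
    f (∏ i ∈ s, g i) = ∑ i ∈ s, f (g i) := by
  classical
  induction s using Finset.induction_on with
  | empty => rw [Finset.prod_empty, Finset.sum_empty, hom_one hf]
  | insert i s hi ih => rw [Finset.prod_insert hi, Finset.sum_insert hi, hf, ih]

theorem ordp_hom {p : ℕ} {F : Type} [Field F] [NumberField F] (w : HeightOneSpectrum (𝓞 F)) :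
    Hom (ordp p w) := by
  intro x y
  unfold ordp
  rw [Units.val_mul, ordv_mul w x.ne_zero y.ne_zero]
  push_cast
  ring

end homs

section types

variable {p : ℕ} {K K₁ : Type} [Field K] [Field K₁] [Algebra K K₁] {ε : K₁}

theorem om_pow (hO : ∀ x y : K₁ˣ, OmType p K ε (x : K₁) → OmType p K ε (y : K₁) →
    OmType p K ε ((x * y : K₁ˣ) : K₁) ∧ OmType p K ε ((x⁻¹ : K₁ˣ) : K₁))
    {x : K₁ˣ} (hx : OmType p K ε (x : K₁)) (n : ℕ) : OmType p K ε ((x ^ n : K₁ˣ) : K₁) := by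
  induction n with
  | zero =>
    have h := (hO x x⁻¹ hx (hO x x hx hx).2).1
    rw [mul_inv_cancel] at h
    rw [pow_zero]
    exact h
  | succ n ih =>
    rw [pow_succ]
    exact (hO _ _ ih hx).1

theorem om_prod (hO : ∀ x y : K₁ˣ, OmType p K ε (x : K₁) → OmType p K ε (y : K₁) →
    OmType p K ε ((x * y : K₁ˣ) : K₁) ∧ OmType p K ε ((x⁻¹ : K₁ˣ) : K₁))
    {x : K₁ˣ} (hx : OmType p K ε (x : K₁)) {ι : Type} (s : Finset ι) (g : ι → K₁ˣ)
    (hg : ∀ i ∈ s, OmType p K ε ((g i : K₁ˣ) : K₁)) :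
    OmType p K ε ((∏ i ∈ s, g i : K₁ˣ) : K₁) := by
  classical
  induction s using Finset.induction_on with
  | empty =>
    have h := om_pow hO hx 0
    rw [pow_zero] at h
    rw [Finset.prod_empty]
    exact h
  | insert i s hi ih =>
    rw [Finset.prod_insert hi]
    exact (hO _ _ (hg i (Finset.mem_insert_self i s))
      (ih fun j hj => hg j (Finset.mem_insert_of_mem hj))).1

end types

section main

variable {p : ℕ} [Fact p.Prime] {K M K₁ M₁ : Type} [Field K] [NumberField K] [Field M]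
  [NumberField M] [Field K₁] [NumberField K₁] [Field M₁] [NumberField M₁] [Algebra K M]
  [Algebra K K₁] [Algebra K M₁] [Algebra M M₁] [Algebra K₁ M₁] {ε : K₁} {δ : M ≃ₐ[K] M}
  {P : (ZMod p)[X]}

omit [NumberField K] [NumberField K₁] in
theorem pow_om (hε : IsPrimitiveRoot ε p) (y : K₁ˣ) : OmType p K ε ((y ^ p : K₁ˣ) : K₁) := by
  intro τ
  have hp : p.Prime := Fact.out
  have h1 : (τ ε) ^ p = 1 := by rw [← map_pow, hε.pow_eq_one, map_one]
  have hne : NeZero p := ⟨hp.ne_zero⟩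
  obtain ⟨n, _, hn⟩ := hε.eq_pow_of_pow_eq_one h1
  refine ⟨n, τ (y : K₁) / (y : K₁) ^ n, hn.symm, ?_⟩
  rw [Units.val_pow_eq_pow_val, map_pow, div_pow, ← pow_mul, ← pow_mul, mul_comm p n,
    mul_div_cancel₀]
  exact pow_ne_zero _ y.ne_zero

theorem core [IsGalois K K₁] (h1 : P_OMG) (h3 : P_UPR) (B : Base p K M K₁ M₁ ε δ P)
    (hε : IsPrimitiveRoot ε p) (hgen : ∀ σ : K₁ ≃ₐ[K] K₁, σ ε = ε → σ = 1)
    (hcop : (finrank K K₁).Coprime p) (a : K₁ˣ) (ha : OmType p K ε (a : K₁))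
    (h0 : ∀ v ∈ B.calP, ordp p (B.Q v) a = 0) :
    (∀ g : K₁ˣ → ZMod p, IsOm p K ε g → g a = ∑ i, B.rw i a * g (B.uw i)) ∧
    ((∀ i, B.rw i a = 0) → Pw p a) := by
  classical
  obtain ⟨hO1, hO2, hO3, hO4, hO5⟩ := h1 p K K₁ ε hε hgen hcop
  obtain ⟨hU1, hU2, hU3, hU4, hU5, hU6, hU7⟩ := h3 p K K₁ B.S
  have hp : p.Prime := Fact.out
  have hdiv : ∀ w ∉ up K₁ B.S, (p : ℤ) ∣ ordv w (a : K₁) := by
    intro w hw
    by_cases hf : FreeP K w
    · obtain ⟨v, hv⟩ := hU4 w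
      have hvS : v ∉ B.S := fun h => hw ⟨v, h, hv⟩
      have hvP : v ∈ B.calP := ⟨hvS, w, hv, hf⟩
      obtain ⟨g, hg⟩ := hU7 v (B.Q v) w (B.Qa v hvP).1 hv
      have e1 : ordv w (a : K₁) = ordv (B.Q v) (g.symm (a : K₁)) := by
        have e2 := hg (g.symm (a : K₁))
        rw [AlgEquiv.apply_symm_apply] at e2
        unfold ordv
        rw [e2]
      obtain ⟨n, c, -, hc⟩ := ha g.symm
      have hc0 : c ≠ 0 := by
        rintro rfl
        rw [zero_pow hp.ne_zero, mul_zero] at hc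
        exact a.ne_zero ((_root_.map_eq_zero _).1 hc)
      rw [e1, hc, ordv_mul _ (pow_ne_zero _ a.ne_zero) (pow_ne_zero _ hc0), ordv_pow, ordv_pow]
      have e3 : (p : ℤ) ∣ ordv (B.Q v) (a : K₁) := by
        rw [← ZMod.intCast_zmod_eq_zero_iff_dvd]
        exact h0 v hvP
      exact dvd_add (Dvd.dvd.mul_left e3 _) (dvd_mul_right _ _)
    · exact hO4 a ha w hf
  have hfin : {w : HeightOneSpectrum (𝓞 K₁) | ordv w (a : K₁) / p ≠ 0}.Finite := by
    refine (finite_ordv (a : K₁) a.ne_zero).subset ?_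
    intro w hw h0
    apply hw
    rw [h0, Int.zero_ediv]
  obtain ⟨y, hy⟩ := B.prK (Finsupp.ofSupportFinite (fun w => ordv w (a : K₁) / p) hfin)
  have hy' : ∀ w ∉ up K₁ B.S, ordv w (y : K₁) = ordv w (a : K₁) / p := fun w hw => hy w hw
  obtain ⟨b, hb⟩ : ∃ b : K₁ˣ, b = a * (y ^ p)⁻¹ := ⟨_, rfl⟩
  have hbU : b ∈ (up K₁ B.S).unit K₁ := by
    intro w hw
    have e1 : ordv w (b : K₁) = 0 := by
      rw [hb, Units.val_mul, ordv_mul w a.ne_zero (y ^ p)⁻¹.ne_zero, Units.val_inv_eq_inv_val,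
        ordv_inv w (y ^ p).ne_zero, Units.val_pow_eq_pow_val, ordv_pow, hy' w hw,
        Int.mul_ediv_cancel' (hdiv w hw)]
      ring
    have e2 := WithZero.exp_log ((Valuation.ne_zero_iff (w.valuation K₁)).2 b.ne_zero)
    unfold ordv at e1
    rw [← e2, neg_eq_zero.1 e1, WithZero.exp_zero]
  have hbO : OmType p K ε (b : K₁) := by
    rw [hb]
    exact (hO5 _ _ ha (hO5 _ _ (pow_om hε y) (pow_om hε y)).2).1
  have hgb : ∀ g : K₁ˣ → ZMod p, IsOm p K ε g → g b = g a := by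
    intro g hg
    rw [hb, hg.1, hom_inv hg.1, hO2 g hg (y ^ p) ⟨y, rfl⟩]
    ring
  obtain ⟨c, hc⟩ : ∃ c : K₁ˣ, c = b * (∏ i, (B.uw i) ^ (B.rw i b).val)⁻¹ := ⟨_, rfl⟩
  have hcU : c ∈ (up K₁ B.S).unit K₁ := by
    rw [hc]
    exact mul_mem hbU (inv_mem (prod_mem fun i _ => pow_mem (B.uwS i) _))
  have hprO := om_prod hO5 hbO Finset.univ (fun i => (B.uw i) ^ (B.rw i b).val)
    (fun i _ => om_pow hO5 (B.uwO i) _)
  have hcO : OmType p K ε (c : K₁) := by
    rw [hc]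
    exact (hO5 _ _ hbO (hO5 _ _ hprO hprO).2).1
  have hgc : ∀ g : K₁ˣ → ZMod p, IsOm p K ε g →
      g c = g a - ∑ i, B.rw i a * g (B.uw i) := by
    intro g hg
    rw [hc, hg.1, hom_inv hg.1, hom_prod hg.1, hgb g hg, sub_eq_add_neg]
    congr 2
    apply Finset.sum_congr rfl
    intro i _
    rw [hom_pow hg.1, nsmul_eq_mul, ZMod.natCast_val, ZMod.cast_id, hgb _ (B.rwO i)]
  have hc0 : ∀ i, B.rw i c = 0 := by
    intro i
    rw [hgc _ (B.rwO i)]
    simp only [B.rwu, mul_ite, mul_one, mul_zero, Finset.sum_ite_eq, Finset.mem_univ, if_true,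
      sub_self]
  have hcp : Pw p c := B.rw0 c hcU hcO hc0
  refine ⟨fun g hg => ?_, fun hr => ?_⟩
  · have e1 := hgc g hg
    rw [hO2 g hg c hcp] at e1
    exact (sub_eq_zero.1 e1.symm)
  · have hbp : Pw p b := B.rw0 b hbU hbO fun i => by rw [hgb _ (B.rwO i), hr i]
    obtain ⟨t, ht⟩ := hbp
    refine ⟨t * y, ?_⟩
    rw [mul_pow, ← ht, hb, inv_mul_cancel_right]

end main

end Dew

open Dew in
/-- **P_DEW.** -/
theorem p_dew (h1 : P_OMG) (h2 : P_NZY) (h3 : P_UPR) : P_DEW := by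
  classical
  intro p hpf k _ _ K M K₁ M₁ _ _ _ _ _ _ _ _ _ _ _ _ _ ε δ P hs B a ha Z hZ hZ0
  have hp : p.Prime := Fact.out
  have hgK := hs.gK
  have hε := hs.tow.prim
  have hgen := hs.tow.gen
  have hcop := (_root_.Pool.Agent.Helper90.LE.l_cyc p K K₁ ε ⟨hε, hgK, hgen⟩).2.1
  obtain ⟨hO1, hO2, hO3, hO4, hO5⟩ := h1 p K K₁ ε hε hgen hcop
  obtain ⟨-, hN2, -, -⟩ := h2 p k K M K₁ M₁ ε δ P hs B
  set g₀ : ZMod p := (finrank K K₁ : ZMod p) with hg₀
  have hg₀0 : g₀ ≠ 0 := by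
    rw [hg₀, Ne, ZMod.natCast_eq_zero_iff]
    intro h
    have h4 := Nat.Coprime.eq_one_of_dvd hcop.symm h
    exact hp.one_lt.ne' h4
  choose ys hys1 hys2 _ using hO3
  obtain ⟨kk, hkk⟩ : ∃ kk : HeightOneSpectrum (𝓞 K) → ℕ, ∀ v,
      (kk v : ZMod p) = g₀ * ordp p (B.Q v) a :=
    ⟨fun v => (g₀ * ordp p (B.Q v) a).val, fun v => by rw [ZMod.natCast_val, ZMod.cast_id]⟩
  obtain ⟨b, hb⟩ : ∃ b : K₁ˣ, b = a * (∏ v ∈ Z, (ys (B.y v)) ^ (kk v))⁻¹ := ⟨_, rfl⟩
  have hprO := om_prod hO5 ha Z (fun v => (ys (B.y v)) ^ (kk v))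
    (fun v _ => om_pow hO5 (hys1 (B.y v)) _)
  have hbO : OmType p K ε (b : K₁) := by
    rw [hb]
    exact (hO5 _ _ ha (hO5 _ _ hprO hprO).2).1
  have hgb : ∀ g : K₁ˣ → ZMod p, IsOm p K ε g →
      g b = g a - ∑ v ∈ Z, g₀ * ordp p (B.Q v) a * g (B.y v) := by
    intro g hg
    rw [hb, hg.1, hom_inv hg.1, hom_prod hg.1, sub_eq_add_neg]
    congr 2
    apply Finset.sum_congr rfl
    intro v _
    rw [hom_pow hg.1, nsmul_eq_mul, hkk, hys2 _ g hg]
  have hb0 : ∀ v ∈ B.calP, ordp p (B.Q v) b = 0 := by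
    intro v hv
    obtain ⟨hW, hW2⟩ := hO1 (ordp p (B.Q v)) (ordp_hom _)
    have e1 := hgb _ hW
    rw [hW2 b hbO, hW2 a ha] at e1
    have e2 : ∑ v' ∈ Z, g₀ * ordp p (B.Q v') a * wf p K ε (ordp p (B.Q v)) (B.y v') =
        g₀ * ordp p (B.Q v) a := by
      by_cases hvZ : v ∈ Z
      · rw [Finset.sum_eq_single_of_mem v hvZ]
        · rw [(hN2 v hv).1, mul_one]
        · intro v' hv' hne
          rw [(hN2 v hv).2 v' (hZ v' hv') hne.symm, mul_zero]
      · rw [hZ0 v hv hvZ, mul_zero]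
        apply Finset.sum_eq_zero
        intro v' hv'
        rw [(hN2 v hv).2 v' (hZ v' hv') (fun h => hvZ (h ▸ hv')), mul_zero]
    rw [e2, sub_self] at e1
    exact (mul_eq_zero.1 e1).resolve_left hg₀0
  obtain ⟨hc1, hc2⟩ := core h1 h3 B hε hgen hcop b hbO hb0
  have hfirst : ∀ g : K₁ˣ → ZMod p, IsOm p K ε g →
      g a = ∑ i, B.rw i a * g (B.uw i) +
        ∑ v ∈ Z, g₀ * ordp p (B.Q v) a * B.tilw g (B.y v) := by
    intro g hg
    have e1 := hc1 g hg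
    have e2 : ∀ i, B.rw i b = B.rw i a - ∑ v ∈ Z, g₀ * ordp p (B.Q v) a * B.rw i (B.y v) :=
      fun i => hgb _ (B.rwO i)
    rw [hgb g hg] at e1
    simp only [e2] at e1
    unfold Base.tilw
    have e3 : g a = ∑ i, (B.rw i a - ∑ v ∈ Z, g₀ * ordp p (B.Q v) a * B.rw i (B.y v)) *
        g (B.uw i) + ∑ v ∈ Z, g₀ * ordp p (B.Q v) a * g (B.y v) := by
      rw [← e1]
      ring
    rw [e3]
    simp only [sub_mul, mul_sub, Finset.sum_sub_distrib, Finset.sum_mul, Finset.mul_sum]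
    rw [Finset.sum_comm (s := Finset.univ) (t := Z)]
    have e4 : ∀ v i, g₀ * ordp p (B.Q v) a * B.rw i (B.y v) * g (B.uw i) =
        g₀ * ordp p (B.Q v) a * (g (B.uw i) * B.rw i (B.y v)) := fun v i => by ring
    simp only [e4]
    ring
  refine ⟨hfirst, ?_, ?_⟩
  · intro hr h0
    obtain ⟨-, h5⟩ := core h1 h3 B hε hgen hcop a ha h0
    exact h5 hr
  · intro v hv
    have hthh : Hom (fun x => B.th v (inc K₁ M₁ x)) := by
      intro x y
      show B.th v (inc K₁ M₁ (x * y)) = _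
      rw [map_mul]
      exact B.thh v hv _ _
    obtain ⟨hW, hW2⟩ := hO1 _ hthh
    have e1 := hfirst (B.G v) hW
    have e2 : ∀ x : K₁ˣ, OmType p K ε (x : K₁) → B.G v x = g₀ * B.th v (inc K₁ M₁ x) :=
      fun x hx => hW2 x hx
    rw [e2 a ha] at e1
    have e3 : g₀ * B.th v (inc K₁ M₁ a) = g₀ * (∑ i, B.rw i a * B.th v (inc K₁ M₁ (B.uw i)) +
        ∑ l ∈ Z, ordp p (B.Q l) a * B.pi v l) := by
      rw [e1, mul_add, Finset.mul_sum, Finset.mul_sum]
      congr 1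
      · apply Finset.sum_congr rfl
        intro i _
        rw [e2 _ (B.uwO i)]
        ring
      · apply Finset.sum_congr rfl
        intro l _
        unfold Base.pi
        ring
    exact mul_left_cancel₀ hg₀0 e3

end Pool.Agent.Helper58.PP
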